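import Pool.Agent.Helper44.GH.Stmts

/-!
MP_d210aa_gt: ST_INV.
-/

set_option autoImplicit false

open Finset Matrix

namespace Pool.Agent.Helper44.GH

open Pool.Agent.Helper44.GF Pool.Agent.Helper44.GN

theorem inv_pd {n m : ℕ} (V : Matrix (Fin n) (Fin m) ℝ) (hV : Function.Injective V.mulVec)
    (y : Fin n → ℝ) (hy : y ∈ Og n) : (TT V V y).PosDef := by
  unfold TT
  have h := Matrix.PosDef.conjTranspose_mul_mul_same (Matrix.PosDef.diagonal (d := y) hy) hV
  rwa [Matrix.conjTranspose_eq_transpose_of_trivial] at h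

theorem inv_TTt {n m : ℕ} (V W : Matrix (Fin n) (Fin m) ℝ) (y : Fin n → ℝ) :
    (TT V W y)ᵀ = TT W V y := by
  unfold TT
  rw [Matrix.transpose_mul, Matrix.transpose_mul, Matrix.transpose_transpose,
    Matrix.diagonal_transpose, Matrix.mul_assoc]

theorem inv_addr {n m : ℕ} (V W X : Matrix (Fin n) (Fin m) ℝ) (y : Fin n → ℝ) :
    TT V (W + X) y = TT V W y + TT V X y := by
  unfold TT
  rw [Matrix.mul_add]

theorem inv_addl {n m : ℕ} (V W X : Matrix (Fin n) (Fin m) ℝ) (y : Fin n → ℝ) :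
    TT (W + X) V y = TT W V y + TT X V y := by
  unfold TT
  rw [Matrix.transpose_add, Matrix.add_mul, Matrix.add_mul]

theorem inv_mulr {n m : ℕ} (V W : Matrix (Fin n) (Fin m) ℝ) (N : Matrix (Fin m) (Fin m) ℝ)
    (y : Fin n → ℝ) : TT V (W * N) y = TT V W y * N := by
  unfold TT
  rw [Matrix.mul_assoc _ W N]

theorem inv_mull {n m : ℕ} (V W : Matrix (Fin n) (Fin m) ℝ) (N : Matrix (Fin m) (Fin m) ℝ)
    (y : Fin n → ℝ) : TT (V * N) W y = Nᵀ * TT V W y := by
  unfold TT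
  rw [Matrix.transpose_mul]
  simp only [Matrix.mul_assoc]

/-- The invariance. -/
theorem st_INV : ST_INV := by
  intro n m V Z hV y hy
  have hpd := inv_pd V hV y hy
  have hu : IsUnit (TT V V y).det := (Matrix.isUnit_iff_isUnit_det _).1 hpd.isUnit
  have hHs : (TT V V y)ᵀ = TT V V y := inv_TTt V V y
  have hHB : TT V V y * BB V Z y = TT V Z y := by
    unfold BB
    rw [← Matrix.mul_assoc, Matrix.mul_nonsing_inv _ hu, Matrix.one_mul]
  have hBH : (BB V Z y)ᵀ * TT V V y = TT Z V y := by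
    have := congrArg Matrix.transpose hHB
    rwa [Matrix.transpose_mul, hHs, inv_TTt] at this
  refine ⟨fun N => ?_, fun C hC => ?_⟩
  · have h1 : BB V (Z + V * N) y = BB V Z y + N := by
      unfold BB
      rw [inv_addr, inv_mulr, Matrix.mul_add, ← Matrix.mul_assoc _ _ N,
        Matrix.nonsing_inv_mul _ hu, Matrix.one_mul]
    refine ⟨h1, ?_⟩
    unfold sgm
    congr 2
    rw [h1, inv_addr, inv_addl, inv_addl, inv_mulr, inv_mulr, inv_mull, inv_mull,
      Matrix.transpose_add, Matrix.add_mul, hBH, Matrix.add_mul, Matrix.mul_add, Matrix.mul_add,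
      show Nᵀ * TT V V y * BB V Z y = Nᵀ * TT V Z y from by rw [Matrix.mul_assoc, hHB]]
    abel
  · have hCu : IsUnit C.det := isUnit_iff_ne_zero.2 hC
    have hCt : IsUnit Cᵀ.det := by rwa [Matrix.det_transpose]
    have hHC : TT (V * C) (V * C) y = Cᵀ * TT V V y * C := by
      rw [inv_mull, inv_mulr, Matrix.mul_assoc]
    have hinv : (TT (V * C) (V * C) y)⁻¹ = C⁻¹ * (TT V V y)⁻¹ * Cᵀ⁻¹ := by
      rw [hHC, Matrix.mul_inv_rev, Matrix.mul_inv_rev, Matrix.mul_assoc]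
    have hB : BB (V * C) (Z * C) y = C⁻¹ * BB V Z y * C := by
      unfold BB
      rw [hinv, inv_mull, inv_mulr]
      calc C⁻¹ * (TT V V y)⁻¹ * Cᵀ⁻¹ * (Cᵀ * (TT V Z y * C))
          = C⁻¹ * (TT V V y)⁻¹ * (Cᵀ⁻¹ * Cᵀ) * (TT V Z y * C) := by
            simp only [Matrix.mul_assoc]
        _ = C⁻¹ * ((TT V V y)⁻¹ * TT V Z y) * C := by
            rw [Matrix.nonsing_inv_mul _ hCt]
            simp only [Matrix.mul_assoc, Matrix.one_mul]
    refine ⟨hB, ?_, ?_⟩
    · have hres : TT (Z * C) (Z * C) y - (BB (V * C) (Z * C) y)ᵀ * TT (V * C) (V * C) y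
          * BB (V * C) (Z * C) y
          = Cᵀ * (TT Z Z y - (BB V Z y)ᵀ * TT V V y * BB V Z y) * C := by
        rw [hB, hHC, inv_mull, inv_mulr, Matrix.transpose_mul, Matrix.transpose_mul,
          Matrix.mul_sub, Matrix.sub_mul, Matrix.transpose_nonsing_inv]
        congr 1
        · rw [Matrix.mul_assoc]
        · calc Cᵀ * ((BB V Z y)ᵀ * Cᵀ⁻¹) * (Cᵀ * TT V V y * C) * (C⁻¹ * BB V Z y * C)
              = Cᵀ * (BB V Z y)ᵀ * (Cᵀ⁻¹ * Cᵀ) * TT V V y * (C * C⁻¹) * BB V Z y * C := by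
                simp only [Matrix.mul_assoc]
            _ = Cᵀ * ((BB V Z y)ᵀ * TT V V y * BB V Z y) * C := by
                rw [Matrix.nonsing_inv_mul _ hCt, Matrix.mul_nonsing_inv _ hCu]
                simp only [Matrix.mul_assoc, Matrix.one_mul]
      unfold sgm
      rw [hres, hinv]
      generalize TT Z Z y - (BB V Z y)ᵀ * TT V V y * BB V Z y = R
      calc Matrix.trace (C⁻¹ * (TT V V y)⁻¹ * Cᵀ⁻¹ * (Cᵀ * R * C))
          = Matrix.trace (C⁻¹ * ((TT V V y)⁻¹ * (Cᵀ⁻¹ * Cᵀ) * R * C)) := by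
            simp only [Matrix.mul_assoc]
        _ = Matrix.trace ((TT V V y)⁻¹ * R) := by
            rw [Matrix.trace_mul_comm, Matrix.nonsing_inv_mul _ hCt, Matrix.mul_one,
              Matrix.mul_assoc _ C C⁻¹, Matrix.mul_nonsing_inv _ hCu, Matrix.mul_one]
    · unfold qf
      rw [hHC, Matrix.det_mul, Matrix.det_mul, Matrix.det_transpose]
      ring

end Pool.Agent.Helper44.GH
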